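import Pool.Agent.H84.B2.Targets

/-!
# (AQS) the four averages and the exchange of the blocks
-/

set_option autoImplicit false

namespace Pool.Agent.H3.BR

open MeasureTheory Set FourierTransform
open Pool.Agent.H83.LS Pool.Agent.H93.AR Pool.Agent.H54.LS Pool.Agent.H14.LS Pool.Agent.H83.AR
open Pool.Agent.H84.BR Pool.Agent.H84.B2
open scoped ENNReal NNReal SchwartzMap

/-- bounded and measurable -/
def MB {d : ℕ} (f : EE d → ℂ) : Prop := Measurable f ∧ ∃ B : ℝ, ∀ x, ‖f x‖ ≤ B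

theorem pf_aqs (hAS : T_AS) (hAC : Pool.Agent.H93.AR.T_AC2) (hJB : T_JB) (hAM1 : T_AM1)
    (hAM2 : Pool.Agent.H93.AR.T_AM2) : T_AQS := by
  intro a b L A f x ha hb hL hf
  have hsw : ∀ (a b : ℕ) (x : EE (a + b)), sw b a (sw a b x) = x := fun a b =>
    (hJB a b).2.2.2.2.2.2.2.2.1
  -- the exchange turns the averages into each other
  have e1 : ∀ g : EE (a + b) → ℂ, (fun y => A1 a b L g (sw b a y)) =
      A2 b a L (fun y => g (sw b a y)) := by
    intro g
    funext y
    rw [hAS a b L g (sw b a y), hsw b a y]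
  have e2 : ∀ g : EE (a + b) → ℂ, (fun y => A2 a b L g (sw b a y)) =
      A1 b a L (fun y => g (sw b a y)) := by
    intro g
    funext y
    have h := hAS b a L (fun y => g (sw b a y)) y
    rw [h]
    have h2 : (fun y => g (sw b a (sw a b y))) = g := by
      funext z
      rw [hsw a b z]
    rw [h2]
  -- bounded measurable functions
  have m1 : ∀ g : EE (b + a) → ℂ, MB g → MB (A1 b a L g) := by
    rintro g ⟨hg, B, hB⟩
    have h := hAM1 b a L hb hL
    exact ⟨h.1 g hg, B, h.2.1 g B hg hB⟩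
  have m2 : ∀ g : EE (b + a) → ℂ, MB g → MB (A2 b a L g) := by
    rintro g ⟨hg, B, hB⟩
    have h := hAM2 b a L ha hL
    exact ⟨h.1 g hg, B, h.2.1 g B hg hB⟩
  have cm : ∀ g : EE (b + a) → ℂ, MB g → A2 b a L (A1 b a L g) = A1 b a L (A2 b a L g) := by
    rintro g ⟨hg, hB⟩
    funext y
    exact ((hAC b a L L g hb ha hL hL hg hB y).2.2).symm
  set F : EE (b + a) → ℂ := fun y => f (sw b a y) with hF
  have hmF : MB F := by
    refine ⟨?_, A, fun y => hf.2.2 _⟩
    exact hf.1.comp (hJB b a).2.2.2.2.2.2.2.1.measurable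
  have h3 : (fun y => AQ a b L f (sw b a y)) = A2 b a L (A2 b a L (A1 b a L (A1 b a L F))) := by
    unfold AQ
    rw [e1, e1, e2, e2]
  have h4 : A2 b a L (A2 b a L (A1 b a L (A1 b a L F))) =
      A1 b a L (A1 b a L (A2 b a L (A2 b a L F))) := by
    rw [cm _ (m1 _ hmF), cm _ (m2 _ (m1 _ hmF)), cm F hmF, cm _ (m2 _ hmF)]
  have h5 : AQ a b L f x = (fun y => AQ a b L f (sw b a y)) (sw a b x) := by
    show AQ a b L f x = AQ a b L f (sw b a (sw a b x))
    rw [hsw a b x]
  rw [h5, h3, h4]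
  rfl

end Pool.Agent.H3.BR
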