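import Pool.Agent.H84.B2.Targets
import Pool.Agent.H19.LS.PLE

/-!
# (QM) radial cutoffs of the second block of frequencies
-/

set_option autoImplicit false

namespace Pool.Agent.H3.BR

open MeasureTheory Set FourierTransform
open Pool.Agent.H83.LS Pool.Agent.H93.AR Pool.Agent.H54.LS Pool.Agent.H14.LS Pool.Agent.H83.AR
open Pool.Agent.H84.BR Pool.Agent.H84.B2
open scoped ENNReal NNReal SchwartzMap ContDiff

/-! ## The kernels -/

lemma eta0_one {s : ℝ} (hs : s ≤ 1) : eta0 s = 1 :=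
  Real.smoothTransition.one_of_one_le (by linarith)

lemma eta0_zero {s : ℝ} (hs : 2 ≤ s) : eta0 s = 0 :=
  Real.smoothTransition.zero_of_nonpos (by linarith)

lemma eta0_mem (s : ℝ) : 0 ≤ eta0 s ∧ eta0 s ≤ 1 :=
  ⟨Real.smoothTransition.nonneg _, Real.smoothTransition.le_one _⟩

lemma contDiff_eta_norm (b : ℕ) : ContDiff ℝ ∞ fun η : EE b => ((eta0 ‖η‖ : ℝ) : ℂ) := by
  refine Complex.ofRealCLM.contDiff.comp (contDiff_iff_contDiffAt.2 fun η => ?_)
  rcases eq_or_ne η 0 with h | h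
  · subst h
    have h1 : (fun η : EE b => eta0 ‖η‖) =ᶠ[nhds 0] fun _ => (1 : ℝ) := by
      filter_upwards [Metric.ball_mem_nhds (0 : EE b) one_pos] with x hx
      rw [mem_ball_zero_iff] at hx
      exact eta0_one hx.le
    exact contDiffAt_const.congr_of_eventuallyEq h1
  · exact Real.smoothTransition.contDiff.contDiffAt.comp _
      (contDiffAt_const.sub (contDiffAt_norm ℝ h))

lemma support_eta_norm (b : ℕ) : HasCompactSupport fun η : EE b => ((eta0 ‖η‖ : ℝ) : ℂ) := by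
  refine HasCompactSupport.intro (isCompact_closedBall (0 : EE b) 2) fun x hx => ?_
  rw [mem_closedBall_zero_iff, not_le] at hx
  rw [eta0_zero hx.le, Complex.ofReal_zero]

/-- the kernel with a given transform at scale `Lam` -/
lemma kern {b : ℕ} (Φ : 𝓢(EE b, ℂ)) : ∃ C : ℝ, ∀ Lam : ℝ, 0 < Lam → ∃ k : EE b → ℂ,
    Continuous k ∧ Integrable k ∧ ∫ y, ‖k y‖ ≤ C ∧ ∀ η, 𝓕 k η = Φ (Lam⁻¹ • η) := by
  set k₁ : 𝓢(EE b, ℂ) := 𝓕⁻ Φ with hk₁
  refine ⟨∫ y, ‖k₁ y‖, fun Lam hLam => ?_⟩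
  set D : ℝ := |(Lam ^ Module.finrank ℝ (EE b))⁻¹| with hD
  have hD0 : 0 < D := by rw [hD]; positivity
  refine ⟨fun y => ((D⁻¹ : ℝ) : ℂ) * k₁ (Lam • y), ?_, ?_, ?_, ?_⟩
  · exact continuous_const.mul (k₁.continuous.comp (continuous_const_smul Lam))
  · exact ((integrable_comp_smul_iff volume (fun y => k₁ y) hLam.ne').2 k₁.integrable).const_mul _
  · have h1 : ∀ y, ‖((D⁻¹ : ℝ) : ℂ) * k₁ (Lam • y)‖ = D⁻¹ * ‖k₁ (Lam • y)‖ := by
      intro y
      rw [norm_mul, Complex.norm_real, Real.norm_of_nonneg (by positivity)]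
    simp_rw [h1]
    rw [integral_const_mul, Measure.integral_comp_smul volume (fun y => ‖k₁ y‖) Lam, ← hD,
      smul_eq_mul, ← mul_assoc, inv_mul_cancel₀ hD0.ne', one_mul]
  · intro η
    rw [Pool.Agent.H19.LS.fourier_e]
    have h1 : ∀ y : EE b, e (-inner ℝ y η) * (((D⁻¹ : ℝ) : ℂ) * k₁ (Lam • y)) =
        ((D⁻¹ : ℝ) : ℂ) * (fun u : EE b => e (-inner ℝ u (Lam⁻¹ • η)) * k₁ u) (Lam • y) := by
      intro y
      have h2 : inner ℝ (Lam • y) (Lam⁻¹ • η) = inner ℝ y η := by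
        rw [real_inner_smul_left, real_inner_smul_right, ← mul_assoc, mul_inv_cancel₀ hLam.ne',
          one_mul]
      simp only [h2]
      ring
    simp_rw [h1]
    rw [integral_const_mul, Measure.integral_comp_smul volume
      (fun u : EE b => e (-inner ℝ u (Lam⁻¹ • η)) * k₁ u) Lam, ← hD, Complex.real_smul,
      ← mul_assoc, ← Complex.ofReal_mul, inv_mul_cancel₀ hD0.ne', Complex.ofReal_one, one_mul,
      ← Pool.Agent.H19.LS.fourier_e]
    have h3 : 𝓕 (k₁ : EE b → ℂ) = (Φ : EE b → ℂ) := by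
      rw [← SchwartzMap.fourier_coe, hk₁, FourierTransform.fourier_fourierInv_eq]
    rw [h3]

/-! ## Convolution in the second block -/

/-- the embedding of the second block -/
noncomputable def J2 (a b : ℕ) (y : EE b) : EE (a + b) := jm a b 0 y

lemma jm_sub (a b : ℕ) (hJM : T_JM) (x : EE (a + b)) (y : EE b) :
    jm a b (p1 a b x) (p2 a b x - y) = x - J2 a b y := by
  obtain ⟨h1, h2, -⟩ := hJM a b
  rw [← h2 (x - J2 a b y)]
  have e1 : p1 a b (x - J2 a b y) = p1 a b x := by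
    have : p1 a b (x - J2 a b y) = p1 a b x - p1 a b (J2 a b y) := by
      ext i; simp [p1]
    rw [this, J2, (h1 0 y).1, sub_zero]
  have e2 : p2 a b (x - J2 a b y) = p2 a b x - y := by
    have : p2 a b (x - J2 a b y) = p2 a b x - p2 a b (J2 a b y) := by
      ext i; simp [p2]
    rw [this, J2, (h1 0 y).2]
  rw [e1, e2]

/-- convolution in the second block -/
noncomputable def cv2 (a b : ℕ) (k : EE b → ℂ) (f : EE (a + b) → ℂ) (x : EE (a + b)) : ℂ :=
  ∫ y, k y * f (x - J2 a b y)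

lemma cv2_spec (a b : ℕ) (hJM : T_JM) {k : EE b → ℂ} (hk : Continuous k) (hki : Integrable k)
    {f : EE (a + b) → ℂ} {A : ℝ} (hf : BI A f) :
    Measurable (cv2 a b k f) ∧ Integrable (cv2 a b k f) ∧
    (∀ x, ‖cv2 a b k f x‖ ≤ (∫ y, ‖k y‖) * A) ∧
    (∀ ξ, 𝓕 (cv2 a b k f) ξ = 𝓕 k (p2 a b ξ) * 𝓕 f ξ) ∧
    ∀ S : Set ℝ, (∀ x, f x ≠ 0 → ‖p1 a b x‖ ∈ S) → ∀ x, cv2 a b k f x ≠ 0 → ‖p1 a b x‖ ∈ S := by
  obtain ⟨hfm, hfi, hfb⟩ := hf
  have hJ := hJM a b
  have hJc : Continuous (J2 a b) := hJ.2.2.2.2.1.comp (Continuous.prodMk continuous_const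
    continuous_id)
  have hm : Measurable fun q : EE (a + b) × EE b => k q.2 * f (q.1 - J2 a b q.2) :=
    (hk.measurable.comp measurable_snd).mul
      (hfm.comp (continuous_fst.sub (hJc.comp continuous_snd)).measurable)
  have hint : Integrable (fun q : EE (a + b) × EE b => k q.2 * f (q.1 - J2 a b q.2))
      (volume.prod volume) := by
    rw [integrable_prod_iff' hm.aestronglyMeasurable]
    constructor
    · exact ae_of_all _ fun y => (hfi.comp_sub_right (J2 a b y)).const_mul (k y)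
    · have h1 : ∀ y : EE b, ∫ x : EE (a + b), ‖k y * f (x - J2 a b y)‖ =
          ‖k y‖ * ∫ x, ‖f x‖ := by
        intro y
        simp_rw [norm_mul]
        rw [integral_const_mul, integral_sub_right_eq_self (fun x => ‖f x‖)]
      simp only [h1]
      exact hki.norm.mul_const _
  refine ⟨?_, ?_, ?_, ?_, ?_⟩
  · exact (hm.stronglyMeasurable.integral_prod_right').measurable
  · exact hint.integral_prod_left
  · intro x
    unfold cv2
    refine (norm_integral_le_integral_norm _).trans ?_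
    rw [← integral_mul_const]
    refine integral_mono_of_nonneg (ae_of_all _ fun y => norm_nonneg _) (hki.norm.mul_const _)
      (ae_of_all _ fun y => ?_)
    simp only
    rw [norm_mul]
    exact mul_le_mul_of_nonneg_left (hfb _) (norm_nonneg _)
  · intro ξ
    rw [Pool.Agent.H19.LS.fourier_e]
    unfold cv2
    have h1 : ∀ x : EE (a + b), e (-inner ℝ x ξ) * ∫ y, k y * f (x - J2 a b y) =
        ∫ y, e (-inner ℝ x ξ) * (k y * f (x - J2 a b y)) := fun x => by
      rw [integral_const_mul]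
    simp_rw [h1]
    have hint2 : Integrable (Function.uncurry fun (x : EE (a + b)) (y : EE b) =>
        e (-inner ℝ x ξ) * (k y * f (x - J2 a b y))) (volume.prod volume) := by
      refine hint.bdd_mul (c := 1) ?_ (ae_of_all _ fun q => (norm_e _).le)
      exact (continuous_e.comp (by fun_prop)).aestronglyMeasurable
    rw [integral_integral_swap hint2]
    have h2 : ∀ y : EE b, ∫ x : EE (a + b), e (-inner ℝ x ξ) * (k y * f (x - J2 a b y)) =
        e (-inner ℝ y (p2 a b ξ)) * k y * 𝓕 f ξ := by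
      intro y
      have h3 : ∀ x : EE (a + b), e (-inner ℝ x ξ) * (k y * f (x - J2 a b y)) =
          (fun u => e (-inner ℝ y (p2 a b ξ)) * k y * (e (-inner ℝ u ξ) * f u))
            (x - J2 a b y) := by
        intro x
        have h4 : inner ℝ (J2 a b y) ξ = inner ℝ y (p2 a b ξ) := by
          rw [hJ.2.2.1, J2, (hJ.1 0 y).1, (hJ.1 0 y).2, inner_zero_left, zero_add]
        have h5 : e (-inner ℝ x ξ) =
            e (-inner ℝ y (p2 a b ξ)) * e (-inner ℝ (x - J2 a b y) ξ) := by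
          rw [← e_add, inner_sub_left, h4]
          congr 1
          ring
        simp only
        rw [h5]
        ring
      simp_rw [h3]
      rw [integral_sub_right_eq_self (fun u =>
        e (-inner ℝ y (p2 a b ξ)) * k y * (e (-inner ℝ u ξ) * f u)), integral_const_mul,
        ← Pool.Agent.H19.LS.fourier_e]
    simp_rw [h2]
    rw [integral_mul_const, ← Pool.Agent.H19.LS.fourier_e]
  · intro S hS x hx
    by_contra hcon
    refine hx ?_
    unfold cv2
    have h1 : ∀ y, f (x - J2 a b y) = 0 := by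
      intro y
      by_contra h2
      refine hcon ?_
      have h3 := hS _ h2
      have h4 : p1 a b (x - J2 a b y) = p1 a b x := by
        have : p1 a b (x - J2 a b y) = p1 a b x - p1 a b (J2 a b y) := by
          ext i; simp [p1]
        rw [this, J2, (hJ.1 0 y).1, sub_zero]
      rwa [h4] at h3
    simp [h1]

/-- functions which are bounded and integrable -/
lemma BI.memLp {d : ℕ} {A : ℝ} {f : EE d → ℂ} (hf : BI A f) : MemLp f 2 := by
  obtain ⟨hfm, hfi, hfb⟩ := hf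
  refine Pool.Agent.H19.LS.memLp_two_of f hfm.aestronglyMeasurable ?_
  have h1 : ∫⁻ y, ‖f y‖ₑ ^ 2 ≤ ∫⁻ y, ENNReal.ofReal A * ‖f y‖ₑ := by
    refine lintegral_mono fun y => ?_
    rw [pow_two]
    have : ‖f y‖ₑ ≤ ENNReal.ofReal A := by
      rw [← ofReal_norm]
      exact ENNReal.ofReal_le_ofReal (hfb y)
    gcongr
  refine ne_top_of_le_ne_top ?_ h1
  rw [lintegral_const_mul _ hfm.enorm]
  exact ENNReal.mul_ne_top ENNReal.ofReal_ne_top hfi.2.ne

theorem pf_qm (hJM : T_JM) : T_QM := by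
  intro a b ha hb
  have hc1 := support_eta_norm b
  set Φ : 𝓢(EE b, ℂ) := hc1.toSchwartzMap (contDiff_eta_norm b) with hΦ
  have hΦe : ∀ η, Φ η = ((eta0 ‖η‖ : ℝ) : ℂ) := fun η => rfl
  obtain ⟨C₀, hC₀⟩ := kern Φ
  have hC0 : 0 ≤ C₀ := by
    obtain ⟨k, -, -, h, -⟩ := hC₀ 1 one_pos
    exact (integral_nonneg fun y => norm_nonneg _).trans h
  refine ⟨1 + 2 * C₀, by linarith, ?_⟩
  intro Lam A c f hLam hc hf
  have hA : 0 ≤ A := (norm_nonneg _).trans (hf.2.2 0)
  have key : ∃ k : EE b → ℂ, Continuous k ∧ Integrable k ∧ ∫ y, ‖k y‖ ≤ 1 + 2 * C₀ ∧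
      (∀ η, 𝓕 k η = ((c ‖η‖ : ℝ) : ℂ)) := by
    have hn : ∀ (L : ℝ) (η : EE b), 0 < L → ‖L⁻¹ • η‖ = ‖η‖ / L := by
      intro L η hL
      rw [norm_smul, Real.norm_of_nonneg (by positivity), div_eq_inv_mul]
    rcases hc with hc | hc
    · obtain ⟨k, h1, h2, h3, h4⟩ := hC₀ Lam hLam
      refine ⟨k, h1, h2, by linarith, fun η => ?_⟩
      rw [h4, hΦe, hc, hn _ _ hLam]
    · obtain ⟨k, h1, h2, h3, h4⟩ := hC₀ Lam hLam
      obtain ⟨k', h1', h2', h3', h4'⟩ := hC₀ (Lam / 2) (by positivity)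
      refine ⟨fun y => k y - k' y, h1.sub h1', h2.sub h2', ?_, fun η => ?_⟩
      · have h5 : ∫ y, ‖k y - k' y‖ ≤ ∫ y, (‖k y‖ + ‖k' y‖) :=
          integral_mono (h2.sub h2').norm (h2.norm.add h2'.norm) fun y => norm_sub_le _ _
        rw [integral_add h2.norm h2'.norm] at h5
        linarith
      · have h6 : 𝓕 (fun y => k y - k' y) η = 𝓕 k η - 𝓕 k' η := by
          rw [Pool.Agent.H19.LS.fourier_e, Pool.Agent.H19.LS.fourier_e,
            Pool.Agent.H19.LS.fourier_e, ← integral_sub]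
          · congr 1
            funext y
            ring
          · exact h2.bdd_mul (c := 1) (continuous_e.comp (by fun_prop)).aestronglyMeasurable
              (ae_of_all _ fun q => (norm_e _).le)
          · exact h2'.bdd_mul (c := 1) (continuous_e.comp (by fun_prop)).aestronglyMeasurable
              (ae_of_all _ fun q => (norm_e _).le)
        rw [h6, h4, h4', hΦe, hΦe, hc, hn _ _ hLam, hn _ _ (by positivity), chi,
          ← Complex.ofReal_sub]
        congr 3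
        field_simp
  have hcb : ∀ s, |c s| ≤ 1 := by
    intro s
    rcases hc with hc | hc
    · rw [hc, abs_le]
      have := eta0_mem (s / Lam)
      constructor <;> linarith
    · rw [hc, chi, abs_le]
      have h1 := eta0_mem (s / Lam)
      have h2 := eta0_mem (2 * (s / Lam))
      constructor <;> linarith
  obtain ⟨k, hk1, hk2, hk3, hk4⟩ := key
  obtain ⟨g1, g2, g3, g4, g5⟩ := cv2_spec a b hJM hk1 hk2 hf
  have hBI : BI ((1 + 2 * C₀) * A) (cv2 a b k f) :=
    ⟨g1, g2, fun x => (g3 x).trans (mul_le_mul_of_nonneg_right hk3 hA)⟩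
  have hF : ∀ ξ, 𝓕 (cv2 a b k f) ξ = ((c ‖p2 a b ξ‖ : ℝ) : ℂ) * 𝓕 f ξ := fun ξ => by
    rw [g4, hk4]
  refine ⟨cv2 a b k f, hBI, hF, ?_, g5⟩
  rw [← Pool.Agent.H19.LS.plancherelE _ g2 (BI.memLp hBI),
    ← Pool.Agent.H19.LS.plancherelE _ hf.2.1 (BI.memLp hf)]
  refine lintegral_mono fun ξ => ?_
  simp only
  rw [hF, enorm_mul]
  have h1 : ‖((c ‖p2 a b ξ‖ : ℝ) : ℂ)‖ₑ ≤ 1 := by
    rw [← ofReal_norm, Complex.norm_real, Real.norm_eq_abs, ← ENNReal.ofReal_one]
    exact ENNReal.ofReal_le_ofReal (hcb _)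
  calc (‖((c ‖p2 a b ξ‖ : ℝ) : ℂ)‖ₑ * ‖𝓕 f ξ‖ₑ) ^ 2 ≤ (1 * ‖𝓕 f ξ‖ₑ) ^ 2 := by gcongr
    _ = ‖𝓕 f ξ‖ₑ ^ 2 := by rw [one_mul]

end Pool.Agent.H3.BR
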